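import Pool.Agent.X153.FL.Flower

/-!
# Flower support of maximizing measures: a counterexample with `n = 5`

For `f (x) = -(7 cos 2πx + 9 cos 6πx + 6 cos 10πx)`, which is in `V_5`, the uniform measure on the
orbit of `3/43` under the doubling map (period 14) is maximizing, and every flower which contains
its support has at least seven petals.
-/

set_option autoImplicit false

open Set MeasureTheory
open scoped ENNReal

namespace Pool.Agent.Results.MP_38b438_an.SevenPetals

/-- The space `V_n` on the circle `ℝ / ℤ`: trigonometric polynomials with odd frequencies at most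
`n`, not all coefficients zero. -/
def IsOddTrig (n : ℕ) (f : UnitAddCircle → ℝ) : Prop :=
  ∃ a b : ℕ → ℝ, (∃ k ≤ n, Odd k ∧ (a k ≠ 0 ∨ b k ≠ 0)) ∧
    ∀ t : ℝ, f (t : UnitAddCircle) = ∑ k ∈ (Finset.range (n + 1)).filter Odd,
      (a k * Real.cos (2 * Real.pi * k * t) + b k * Real.sin (2 * Real.pi * k * t))

/-- Borel probability measures invariant under doubling. -/
def IsInvariant (μ : Measure UnitAddCircle) : Prop :=
  IsProbabilityMeasure μ ∧ μ.map (fun x => x + x) = μ

/-- `μ` is an invariant probability measure with the largest integral of `f`. -/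
def IsMaximizing (f : UnitAddCircle → ℝ) (μ : Measure UnitAddCircle) : Prop :=
  IsInvariant μ ∧ ∀ ν : Measure UnitAddCircle, IsInvariant ν → ∫ x, f x ∂ν ≤ ∫ x, f x ∂μ

/-- A closed non-degenerate arc. -/
def IsArc (A : Set UnitAddCircle) : Prop :=
  ∃ a b : ℝ, a < b ∧ b < a + 1 ∧ A = (fun t : ℝ => (t : UnitAddCircle)) '' Icc a b

/-- A flower: a finite union `X` of closed non-degenerate arcs with `X ∪ (X + 1/2)` the whole
circle and `X ∩ (X + 1/2)` the boundary of `X`. -/
def IsFlower (X : Set UnitAddCircle) : Prop :=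
  (∃ S : Set (Set UnitAddCircle), S.Finite ∧ (∀ A ∈ S, IsArc A) ∧ X = ⋃₀ S) ∧
  X ∪ (fun x => x + ((1 / 2 : ℝ) : UnitAddCircle)) '' X = univ ∧
  X ∩ (fun x => x + ((1 / 2 : ℝ) : UnitAddCircle)) '' X = frontier X

/-- The petals of `X`: its connected components. -/
def petals (X : Set UnitAddCircle) : Set (Set UnitAddCircle) :=
  {C | ∃ x ∈ X, C = connectedComponentIn X x}

/-- The answer to Q1 is no: there is `f` in `V_5`, namely
`f = -(7 cos 2πx + 9 cos 6πx + 6 cos 10πx)`, with a maximizing measure `μ`, namely the uniform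
measure on the orbit of `3/43` under doubling, such that every flower that contains the support of
`μ` has at least seven petals. -/
theorem result : ∃ (f : UnitAddCircle → ℝ) (μ : Measure UnitAddCircle),
    (∀ t : ℝ, f (t : UnitAddCircle) = -(7 * Real.cos (2 * Real.pi * t) +
      9 * Real.cos (6 * Real.pi * t) + 6 * Real.cos (10 * Real.pi * t))) ∧
    μ = (14 : ℝ≥0∞)⁻¹ • ∑ i ∈ Finset.range 14,
      Measure.dirac ((3 * 2 ^ i / 43 : ℝ) : UnitAddCircle) ∧
    IsOddTrig 5 f ∧ IsMaximizing f μ ∧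
    ∀ X : Set UnitAddCircle, IsFlower X → μ.support ⊆ X → 7 ≤ (petals X).encard := by
  refine ⟨fun x => X153.FL.pp (X153.FL.cz x), X153.FL.mo, ?_, rfl, ?_, ?_, ?_⟩
  · intro t
    simp only [X153.FL.cz_coe, X153.FL.pp_cos]
    have e3 : 3 * (2 * Real.pi * t) = 6 * Real.pi * t := by ring
    have e5 : 5 * (2 * Real.pi * t) = 10 * Real.pi * t := by ring
    rw [e3, e5]
  · refine ⟨fun k => if k = 1 then -7 else if k = 3 then -9 else -6, fun _ => 0,
      ⟨1, by norm_num, odd_one, Or.inl (by norm_num)⟩, ?_⟩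
    intro t
    have hfil : (Finset.range (5 + 1)).filter Odd = {1, 3, 5} := by decide
    rw [hfil]
    simp only [X153.FL.cz_coe, X153.FL.pp_cos]
    rw [Finset.sum_insert (by decide), Finset.sum_insert (by decide), Finset.sum_singleton]
    have e3 : 3 * (2 * Real.pi * t) = 2 * Real.pi * ((3 : ℕ) : ℝ) * t := by push_cast; ring
    have e5 : 5 * (2 * Real.pi * t) = 2 * Real.pi * ((5 : ℕ) : ℝ) * t := by push_cast; ring
    have e1 : 2 * Real.pi * t = 2 * Real.pi * ((1 : ℕ) : ℝ) * t := by push_cast; ring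
    rw [e3, e5]
    nth_rewrite 1 [e1]
    norm_num
    ring
  · refine ⟨⟨X153.FL.mo_prob, X153.FL.mo_inv⟩, ?_⟩
    intro ν hν
    haveI := hν.1
    have h1 := X153.FL.upper ν hν.2
    simp only
    rw [X153.FL.mo_int]
    exact h1
  · intro X hX hs
    exact X153.FL.seven X hX.2.2 fun i hi => hs (X153.FL.mo_pos i hi)

/-- The negated form of Q1, with `n = 5`. -/
theorem negated_form : ∃ (n : ℕ) (f : UnitAddCircle → ℝ) (μ : Measure UnitAddCircle),
    Odd n ∧ IsOddTrig n f ∧ IsMaximizing f μ ∧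
    ¬ ∃ X : Set UnitAddCircle, IsFlower X ∧ (petals X).encard ≤ n ∧ μ.support ⊆ X := by
  obtain ⟨f, μ, _, _, h1, h2, h3⟩ := result
  refine ⟨5, f, μ, by decide, h1, h2, ?_⟩
  rintro ⟨X, hX, hn, hs⟩
  have h4 := (h3 X hX hs).trans hn
  norm_num at h4

end Pool.Agent.Results.MP_38b438_an.SevenPetals
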